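import Pool.Agent.W48.KS.AT
import Pool.Agent.W583.GP.RS

/-!
Discretisation: the limits.
-/

open MeasureTheory Finset Filter
open scoped Topology

namespace Pool.Agent.W48.KS

open Pool.Agent.H390R2.LP Pool.Agent.H785R2.LP Pool.Agent.W259.GP

section val

variable {ι J : Type} [Fintype J] [DecidableEq J]

theorem contAt_val2 (lam : J → ℝ) (Λ : ι → ℝ) (F₀ : Finset ι) (ε : ℝ) (d : Dat ι J)
    (hn : vn lam d ≠ 0) :
    ContinuousAt (fun d : Dat ι J => val2 lam Λ F₀ ε d) d := by
  have h1 : ContinuousAt (fun d : Dat ι J => vn lam d) d := (cont_vn lam).continuousAt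
  have h2 : ContinuousAt (fun d : Dat ι J => vY lam d) d := (cont_vY lam).continuousAt
  have h4 : ∀ a, ContinuousAt (fun d : Dat ι J => vP lam d a) d :=
    fun a => (cont_vP lam a).continuousAt
  have h5 : ∀ i j, ContinuousAt (fun d : Dat ι J => vK lam d i j) d :=
    fun i j => (cont_vK lam i j).continuousAt
  unfold val2
  refine ContinuousAt.sub (ContinuousAt.sub
    (ContinuousAt.add (ContinuousAt.add (ContinuousAt.sub (h1.log hn) continuousAt_const)
    continuousAt_const) (h2.div h1 hn)) ?_) ?_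
  · exact tendsto_finsetSum _ fun a _ => ((h4 a).div h1 hn).mul continuousAt_const
  · refine tendsto_finsetSum _ fun i _ => ?_
    have h7 : ContinuousAt (fun d : Dat ι J => (∑ j, vK lam d i j ^ 2) / vn lam d) d :=
      ContinuousAt.div (tendsto_finsetSum _ fun j _ => (h5 i j).pow 2) h1 hn
    exact Real.continuous_negMulLog.continuousAt.comp h7

theorem val2_lim (lam : J → ℝ) (hlam : ∀ j, 0 < lam j) [Nonempty J] (Λ : ι → ℝ) (F₀ : Finset ι)
    (ε : ℝ) (d : Dat ι J)
    (hd : ∀ i j, d.1 i j = if i = j then 1 else 0) :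
    val2 lam Λ F₀ ε d = (1 / 2 * Real.log Real.pi * ∑ j, lam j + ∑ j, lam j * d.2.2.1 j j
        - ∑ i ∈ F₀, (∑ j, lam j * d.2.2.2.1 i j j) * Real.log (Λ i)
        + ∑ j, lam j * Real.log (lam j)) / ∑ j, lam j - Real.log (1 + ε) := by
  have hT : 0 < ∑ j, lam j := sum_pos (fun j _ => hlam j) univ_nonempty
  unfold val2
  rw [vn_lim lam hlam d hd, vY_lim lam hlam d hd]
  simp_rw [vP_lim lam hlam d hd]
  have h1 : ∀ i, ∑ j, vK lam d i j ^ 2 = lam i := by
    intro i
    simp_rw [vK_lim lam d hd]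
    simp [ite_pow, Real.sq_sqrt (hlam i).le]
  simp_rw [h1]
  have h2 : ∑ i, Real.negMulLog (lam i / ∑ j, lam j)
      = Real.log (∑ j, lam j) - (∑ j, lam j * Real.log (lam j)) / ∑ j, lam j := by
    have h3 : ∀ i, Real.negMulLog (lam i / ∑ j, lam j)
        = lam i / (∑ j, lam j) * Real.log (∑ j, lam j)
          - lam i * Real.log (lam i) / ∑ j, lam j := by
      intro i
      rw [Real.negMulLog, Real.log_div (hlam i).ne' hT.ne']
      ring
    simp_rw [h3, sum_sub_distrib, ← sum_mul, ← sum_div]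
    rw [div_self hT.ne', one_mul]
  rw [h2]
  have h5 : ∑ a ∈ F₀, (∑ j, lam j * d.2.2.2.1 a j j) / (∑ j, lam j) * Real.log (Λ a)
      = (∑ a ∈ F₀, (∑ j, lam j * d.2.2.2.1 a j j) * Real.log (Λ a)) / ∑ j, lam j := by
    rw [sum_div]
    exact sum_congr rfl fun a _ => by ring
  rw [h5]
  have h6 : (1 / 2 * Real.log Real.pi * ∑ j, lam j + ∑ j, lam j * d.2.2.1 j j
        - ∑ i ∈ F₀, (∑ j, lam j * d.2.2.2.1 i j j) * Real.log (Λ i)
        + ∑ j, lam j * Real.log (lam j)) / ∑ j, lam j
      = 1 / 2 * Real.log Real.pi + (∑ j, lam j * d.2.2.1 j j) / ∑ j, lam j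
        - (∑ i ∈ F₀, (∑ j, lam j * d.2.2.2.1 i j j) * Real.log (Λ i)) / ∑ j, lam j
        + (∑ j, lam j * Real.log (lam j)) / ∑ j, lam j := by
    field_simp
  rw [h6]
  ring

end val

theorem AT2_of (hsite : S_site2) (hrs : S_riemann) : S_AT2 := by
  intro ι J _ _ _ _ b lam Λ X Y hlam hΛ hbc hbd hform h0 h1 h2 F₀ η hη
  classical
  have hT : 0 < ∑ j, lam j := sum_pos (fun j _ => hlam j) univ_nonempty
  -- integrability
  have hdec : ∀ a i j (e : ℕ), e ≤ 2 →
      ∃ C, ∀ x, |x ^ e * (b a i x * b a j x)| ≤ C * Real.exp (-x ^ 2 / 8) :=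
    fun a i j e he => dec_mul _ _ (hbd a i) (hbd a j) e he
  have hcont : ∀ a i j (e : ℕ), Continuous fun x => x ^ e * (b a i x * b a j x) :=
    fun a i j e => (continuous_pow e).mul ((hbc a i).mul (hbc a j))
  have hint : ∀ a i j (e : ℕ), e ≤ 2 → Integrable fun x => x ^ e * (b a i x * b a j x) :=
    fun a i j e he => integrable_of_dec _ (hcont a i j e) (hdec a i j e he)
  -- the second moments
  have hY' : ∀ j, HasSum (fun a => ∫ x, x ^ 2 * (b a j x * b a j x)) (Y j) := by
    intro j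
    have h3 : (fun a => ∫ x, x ^ 2 * (b a j x * b a j x)) = fun a => ∫ x, x ^ 2 * b a j x ^ 2 := by
      funext a
      exact integral_congr_ae (Eventually.of_forall fun x => by simp only; ring)
    rw [h3]
    exact h2 j
  have hS2 : ∀ i j, Summable fun a => ∫ x, x ^ 2 * (b a i x * b a j x) := by
    intro i j
    have hs := ((hY' i).summable.add (hY' j).summable).mul_left (1 / 2)
    refine hs.of_norm_bounded fun a => ?_
    rw [← integral_add (hint a i i 2 le_rfl) (hint a j j 2 le_rfl), ← integral_const_mul]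
    refine norm_integral_le_of_norm_le
      (((hint a i i 2 le_rfl).add (hint a j j 2 le_rfl)).const_mul _)
      (Eventually.of_forall fun x => ?_)
    simp only [Real.norm_eq_abs]
    rw [abs_mul, abs_mul, abs_of_nonneg (sq_nonneg x)]
    have : |b a i x| * |b a j x| ≤ (b a i x * b a i x + b a j x * b a j x) / 2 := by
      nlinarith [sq_nonneg (|b a i x| - |b a j x|), sq_abs (b a i x), sq_abs (b a j x)]
    calc x ^ 2 * (|b a i x| * |b a j x|)
        ≤ x ^ 2 * ((b a i x * b a i x + b a j x * b a j x) / 2) :=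
          mul_le_mul_of_nonneg_left this (sq_nonneg x)
      _ = _ := by ring
  -- the data
  set Y2 : J → J → ℝ := fun i j => ∑' a, ∫ x, x ^ 2 * (b a i x * b a j x) with hY2
  have hY2j : ∀ j, Y2 j j = Y j := fun j => (hY' j).tsum_eq
  set d0 : Dat ι J := (fun i j => if i = j then 1 else 0, X, Y2,
    fun a i j => ∫ x, b a i x * b a j x, 0) with hd0
  set dF : Finset ι → Dat ι J := fun F =>
    (fun i j => ∑ a ∈ F, ∫ x, b a i x * b a j x,
     fun i j => ∑ a ∈ F, ∫ x, x * (b a i x * b a j x),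
     fun i j => ∑ a ∈ F, ∫ x, x ^ 2 * (b a i x * b a j x),
     fun a i j => ∫ x, b a i x * b a j x, 0) with hdF
  have hlimF : Tendsto dF atTop (𝓝 d0) := by
    refine Tendsto.prodMk_nhds ?_ (Tendsto.prodMk_nhds ?_ (Tendsto.prodMk_nhds ?_
      (Tendsto.prodMk_nhds tendsto_const_nhds tendsto_const_nhds)))
    · exact tendsto_pi_nhds.mpr fun i => tendsto_pi_nhds.mpr fun j => h0 i j
    · exact tendsto_pi_nhds.mpr fun i => tendsto_pi_nhds.mpr fun j => h1 i j
    · exact tendsto_pi_nhds.mpr fun i => tendsto_pi_nhds.mpr fun j => (hS2 i j).hasSum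
  have hrs' : ∀ a i j (e : ℕ), e ≤ 2 → Tendsto (fun m => rs m fun x => x ^ e * (b a i x * b a j x))
      atTop (𝓝 (∫ x, x ^ e * (b a i x * b a j x))) :=
    fun a i j e he => hrs _ (hcont a i j e) (hdec a i j e he)
  have hrs0 : ∀ a i j, Tendsto (fun m => rs m fun x => b a i x * b a j x)
      atTop (𝓝 (∫ x, b a i x * b a j x)) := by
    intro a i j
    simpa using hrs' a i j 0 (by norm_num)
  have hrs1 : ∀ a i j, Tendsto (fun m => rs m fun x => x * (b a i x * b a j x))
      atTop (𝓝 (∫ x, x * (b a i x * b a j x))) := by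
    intro a i j
    simpa using hrs' a i j 1 (by norm_num)
  have hlimm : ∀ F, Tendsto (fun m => dat b m F) atTop (𝓝 (dF F)) := by
    intro F
    refine Tendsto.prodMk_nhds ?_ (Tendsto.prodMk_nhds ?_ (Tendsto.prodMk_nhds ?_
      (Tendsto.prodMk_nhds ?_ ?_)))
    · exact tendsto_pi_nhds.mpr fun i => tendsto_pi_nhds.mpr fun j =>
        tendsto_finsetSum _ fun a _ => hrs0 a i j
    · exact tendsto_pi_nhds.mpr fun i => tendsto_pi_nhds.mpr fun j =>
        tendsto_finsetSum _ fun a _ => hrs1 a i j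
    · exact tendsto_pi_nhds.mpr fun i => tendsto_pi_nhds.mpr fun j =>
        tendsto_finsetSum _ fun a _ => hrs' a i j 2 le_rfl
    · exact tendsto_pi_nhds.mpr fun a => tendsto_pi_nhds.mpr fun i => tendsto_pi_nhds.mpr fun j =>
        hrs0 a i j
    · have h3 : Tendsto (fun m : ℕ => (6 * (m : ℝ) ^ 2)) atTop atTop := by
        have : Tendsto (fun m : ℕ => ((m : ℝ)) ^ 2) atTop atTop :=
          (tendsto_pow_atTop two_ne_zero).comp tendsto_natCast_atTop_atTop
        exact this.const_mul_atTop (by norm_num)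
      exact h3.inv_tendsto_atTop.congr fun m => by
        simp only [Pi.inv_apply, one_div]
  -- the constants
  set ε : ℝ := η / 2 with hε
  have hε0 : 0 < ε := by positivity
  have hcard : (0 : ℝ) < Fintype.card J := by exact_mod_cast Fintype.card_pos
  obtain ⟨e, he0, he⟩ : ∃ e : ℝ, 0 < e ∧ ∀ j, Fintype.card J * e < √(lam j) ∧
      Fintype.card J * e ≤ ε * √(lam j) := by
    obtain ⟨j0, -, hj0⟩ := exists_min_image (univ : Finset J) (fun j => √(lam j)) univ_nonempty
    have hj0' := Real.sqrt_pos.mpr (hlam j0)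
    refine ⟨min (1 / 2) ε * √(lam j0) / Fintype.card J, by positivity, fun j => ?_⟩
    have h3 : (Fintype.card J : ℝ) * (min (1 / 2) ε * √(lam j0) / Fintype.card J)
        = min (1 / 2) ε * √(lam j0) := by field_simp
    rw [h3]
    have h4 := hj0 j (mem_univ j)
    constructor
    · have h5 : min (1 / 2) ε * √(lam j0) ≤ 1 / 2 * √(lam j0) :=
        mul_le_mul_of_nonneg_right (min_le_left _ _) hj0'.le
      linarith
    · exact mul_le_mul (min_le_right _ _) h4 hj0'.le hε0.le
  -- the good data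
  have hd1 : ∀ i j, d0.1 i j = if i = j then 1 else 0 := fun i j => rfl
  have hval := val2_lim lam hlam Λ F₀ ε d0 hd1
  have hn0 : vn lam d0 = ∑ j, lam j := vn_lim lam hlam d0 hd1
  have hn0' : vn lam d0 ≠ 0 := by rw [hn0]; exact hT.ne'
  have hgood : ∀ᶠ d in 𝓝 d0, (∀ i j, |vK lam d i j - if i = j then √(lam i) else 0| ≤ e) ∧
      0 < vn lam d ∧ val2 lam Λ F₀ ε d0 - η / 4 < val2 lam Λ F₀ ε d ∧
      |vY lam d / vn lam d - vY lam d0 / vn lam d0| < η ∧
      2 / vn lam d * (vY lam d - vX lam d)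
        < 2 / vn lam d0 * (vY lam d0 - vX lam d0) + η := by
    refine Eventually.and ?_ (Eventually.and ?_ (Eventually.and ?_ (Eventually.and ?_ ?_)))
    · refine eventually_all.mpr fun i => eventually_all.mpr fun j => ?_
      have h3 : Tendsto (fun d => vK lam d i j) (𝓝 d0) (𝓝 (if i = j then √(lam i) else 0)) := by
        rw [← vK_lim lam d0 hd1 i j]
        exact (cont_vK lam i j).continuousAt
      have h4 := Metric.tendsto_nhds.mp h3 e he0
      filter_upwards [h4] with d hd
      rw [Real.dist_eq] at hd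
      exact hd.le
    · have h3 : Tendsto (fun d => vn lam d) (𝓝 d0) (𝓝 (∑ j, lam j)) := by
        rw [← vn_lim lam hlam d0 hd1]
        exact (cont_vn lam).continuousAt
      exact h3.eventually_const_lt hT
    · have h3 : ContinuousAt (fun d => val2 lam Λ F₀ ε d) d0 :=
        contAt_val2 lam Λ F₀ ε d0 hn0'
      exact h3.eventually_const_lt (by linarith)
    · have h3 : ContinuousAt (fun d => vY lam d / vn lam d) d0 :=
        (cont_vY lam).continuousAt.div (cont_vn lam).continuousAt hn0'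
      have h4 := Metric.tendsto_nhds.mp h3 η hη
      filter_upwards [h4] with d hd
      rwa [Real.dist_eq] at hd
    · have h3 : ContinuousAt (fun d => 2 / vn lam d * (vY lam d - vX lam d)) d0 :=
        (continuousAt_const.div (cont_vn lam).continuousAt hn0').mul
          ((cont_vY lam).continuousAt.sub (cont_vX lam).continuousAt)
      exact h3.eventually_lt_const (by linarith)
  -- choice of `F`
  have hι : Nonempty ι := by
    by_contra hne
    rw [not_nonempty_iff] at hne
    obtain ⟨j⟩ := (inferInstance : Nonempty J)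
    have h3 := h0 j j
    rw [if_pos rfl] at h3
    have h4 := h3.unique (hasSum_empty)
    exact one_ne_zero h4
  obtain ⟨i0⟩ := hι
  have hFe : ∀ᶠ F in atTop, (∀ᶠ d in 𝓝 (dF F),
      ((∀ i j, |vK lam d i j - if i = j then √(lam i) else 0| ≤ e) ∧
      0 < vn lam d ∧ val2 lam Λ F₀ ε d0 - η / 4 < val2 lam Λ F₀ ε d ∧
      |vY lam d / vn lam d - vY lam d0 / vn lam d0| < η ∧
      2 / vn lam d * (vY lam d - vX lam d)
        < 2 / vn lam d0 * (vY lam d0 - vX lam d0) + η)) ∧ insert i0 F₀ ≤ F :=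
    (hlimF.eventually (eventually_eventually_nhds.mpr hgood)).and (eventually_ge_atTop _)
  obtain ⟨F, hF1, hF2⟩ := hFe.exists
  have hF0 : F₀ ⊆ F := (subset_insert i0 F₀).trans hF2
  have hFi : i0 ∈ F := hF2 (mem_insert_self i0 F₀)
  obtain ⟨m2, hm2⟩ := exists_nat_gt (1 / η)
  obtain ⟨m, ⟨hm1, hm2', hm3, hm5, hm6⟩, hm4⟩ := (((hlimm F).eventually hF1).and
    (eventually_ge_atTop (max (Fintype.card J + 1) (m2 + 1)))).exists
  have hm4a : Fintype.card J + 1 ≤ m := le_trans (le_max_left _ _) hm4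
  have hm4b : m2 + 1 ≤ m := le_trans (le_max_right _ _) hm4
  have hm0 : 0 < m := by omega
  have hmR : (0 : ℝ) < m := by exact_mod_cast hm0
  have hmη : 1 / (m : ℝ) < η := by
    have h3 : (m2 : ℝ) < m := by exact_mod_cast hm4b
    have h4 : 1 / η < m := hm2.trans h3
    rw [div_lt_iff₀ hη] at h4
    rw [div_lt_iff₀ hmR]
    linarith
  have hmJ : Fintype.card J ≤ (2 * m ^ 2 + 1) * F.card := by
    have h3 : 1 ≤ F.card := card_pos.mpr ⟨i0, hFi⟩
    have h4 : m ≤ m ^ 2 := Nat.le_self_pow two_ne_zero m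
    calc Fintype.card J ≤ 2 * m ^ 2 + 1 := by omega
      _ = (2 * m ^ 2 + 1) * 1 := by ring
      _ ≤ _ := Nat.mul_le_mul_left _ h3
  obtain ⟨s, hs1, hs2, hs3⟩ :=
    site_of_dat2 hsite b lam Λ hlam hΛ hform F₀ F hF0 m hm0 hmJ ε e hε0 he hm1 hm2'
  have h3 : Real.log (1 + ε) ≤ ε := by
    have := Real.log_le_sub_one_of_pos (show (0 : ℝ) < 1 + ε by linarith)
    linarith
  have h4 : ∀ i j, d0.2.2.2.1 i j j = ∫ x, b i j x ^ 2 := by
    intro i j
    simp only [hd0]
    exact integral_congr_ae (Eventually.of_forall fun x => by simp only; ring)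
  have h5 : ∀ j, d0.2.2.1 j j = Y j := hY2j
  have h6 : d0.2.1 = X := rfl
  have hY0 : vY lam d0 = ∑ j, lam j * Y j := by
    rw [vY_lim lam hlam d0 hd1]
    simp_rw [h5]
  have hX0 : vX lam d0 = ∑ i, ∑ j, √(lam i * lam j) * X i j ^ 2 := by
    rw [vX_lim lam hlam d0, h6]
  refine ⟨_, inferInstance, inferInstance, _, s, -(m : ℝ), 1 / (m : ℝ), by positivity, hmη,
    ?_, ?_, ?_⟩
  · rw [hval] at hm3
    simp_rw [h4, h5] at hm3
    rw [Real.log_div one_ne_zero hmR.ne', Real.log_one]
    linarith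
  · rw [hs2]
    rw [hY0, hn0] at hm5
    exact hm5
  · rw [hs3]
    rw [hY0, hn0, hX0] at hm6
    refine hm6.trans_le (le_of_eq ?_)
    ring

theorem at2 : S_AT2 := AT2_of site2 Pool.Agent.W583.GP.riemann

end Pool.Agent.W48.KS
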