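import Pool.Agent.W259.GP.Defs

/-!
# Spherical codes: Gaussian states with several modes, one of them measured

Statements for MP_b5f63d_co. Every `S_...` is a `Prop` which has been or will be proved in another
module.
-/

open MeasureTheory Finset Filter
open scoped Topology

namespace Pool.Agent.W48.KS

open Pool.Agent.W259.GP

/-- `1 - eC c` -/
noncomputable def ph (c : ℝ) : ℝ := √(2 * c / (1 + 2 * c))

/-- the exponent given by two modes -/
noncomputable def tm (a b w : ℝ) : ℝ := gH a + gH b - gH ((1 - w) * a + w * b)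

/-- the Kabatiansky-Levenshtein exponent (natural logarithms) at the angle `θ` -/
noncomputable def KL (θ : ℝ) : ℝ :=
  (1 + Real.sin θ) / (2 * Real.sin θ) * Real.log ((1 + Real.sin θ) / (2 * Real.sin θ))
    - (1 - Real.sin θ) / (2 * Real.sin θ) * Real.log ((1 - Real.sin θ) / (2 * Real.sin θ))

/-- the exponent given by a probability distribution with weights `w j` at the points `1 + 2 c j` -/
noncomputable def mx {n : ℕ} (w c : Fin n → ℝ) : ℝ :=
  1 - Real.log 2 - 1 / 2 * ∫ t in (0 : ℝ)..1, Real.log (∑ j, w j / (1 + 2 * c j - t ^ 2))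

/-- **KS-NUM.** numerical value at the angle `π / 3` (take `1 + 2 a`, `1 + 2 b` and
`1 + 2 ((1 - w) a + w b)` squares of rational numbers, so that `gH` is a combination of logarithms of
rational numbers; optimum: `a = 0.19632`, `b = 0.00073680`, `w = 0.93711`, value
`0.3966263 log 2`) -/
def S_num : Prop := ∃ a b w : ℝ, 0 < a ∧ 0 < b ∧ 0 < w ∧ w < 1 ∧
  1 / 2 < w * ph a + (1 - w) * ph b ∧ tm a b w < 39663 / 100000 * Real.log 2

/-- **KS-STRICT.** two modes are strictly better than one mode, at every angle -/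
def S_strict : Prop := ∀ θ : ℝ, 0 < θ → θ < Real.pi / 2 → ∃ a b w : ℝ, 0 < a ∧ 0 < b ∧ 0 < w ∧
  w < 1 ∧ Real.cos θ < w * ph a + (1 - w) * ph b ∧ tm a b w < KL θ

/-- **KS-INT.** -/
def S_int : Prop := ∀ c : ℝ, 0 < c →
  gH c = 1 - Real.log 2 + 1 / 2 * ∫ t in (0 : ℝ)..1, Real.log (1 + 2 * c - t ^ 2)

/-- **KS-LA.** a positive matrix with given eigenvalues and given spectral weights at the first
coordinate, and the eigenvalues of its principal submatrix -/
def S_la : Prop := ∀ (n : ℕ) (w c : Fin (n + 1) → ℝ), (∀ j, 0 < w j) → ∑ j, w j = 1 →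
  (∀ j, 0 < c j) →
  ∃ (O : Fin (n + 1) → Fin (n + 1) → ℝ) (O' : Fin n → Fin n → ℝ) (c' : Fin n → ℝ),
    IsOrth O ∧ IsOrth O' ∧ (∀ j, 0 < c' j) ∧ (∀ j, O j 0 ^ 2 = w j) ∧
    (∀ i l : Fin n, QM O c i.succ l.succ = QM O' c' i l) ∧
    ∀ s : ℝ, 0 ≤ s → s ≤ 1 →
      (∑ j, w j / (1 + 2 * c j - s)) * ∏ j, (1 + 2 * c j - s) = ∏ i, (1 + 2 * c' i - s)

end Pool.Agent.W48.KS
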