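import Pool.Agent.W48.KS.Gauss
import Pool.Agent.W460.KSI.Int
import Pool.Agent.W72.KS.Strict
import Pool.Agent.W417.KS.La
import Pool.Agent.W249.KS.Num
import Pool.Agent.H613R2.LP.KissDefs

/-!
Spherical codes of every angle and kissing numbers: assembly.
-/

open MeasureTheory Finset Filter
open scoped Topology

namespace Pool.Agent.W48.KS

open Pool.Agent.W259.GP

/-- `C` is a spherical code of angle `θ`: unit vectors with inner products at most `cos θ`. -/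
def IsCode {n : ℕ} (θ : ℝ) (C : Finset (EuclideanSpace ℝ (Fin n))) : Prop :=
  (∀ x ∈ C, ‖x‖ = 1) ∧ ∀ x ∈ C, ∀ y ∈ C, x ≠ y → inner ℝ x y ≤ Real.cos θ

/-- the largest size of a spherical code of angle `θ` in `ℝⁿ` -/
noncomputable def A (n : ℕ) (θ : ℝ) : ℕ :=
  sSup {k | ∃ C : Finset (EuclideanSpace ℝ (Fin n)), IsCode θ C ∧ C.card = k}

/-- `limsup (1 / n) log A(n, θ)` -/
noncomputable def rate (θ : ℝ) : ℝ := limsup (fun n : ℕ => Real.log (A n θ) / n) atTop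

theorem rate_le {θ β : ℝ} (h : ∀ ε : ℝ, 0 < ε → ∃ N0 : ℕ, ∀ N ≥ N0,
    ∀ C : Finset (EuclideanSpace ℝ (Fin N)), IsCode θ C →
      (C.card : ℝ) ≤ Real.exp (N * (β + ε))) : rate θ ≤ β := by
  refine le_of_forall_pos_le_add fun ε hε => ?_
  obtain ⟨N0, hN0⟩ := h ε hε
  unfold rate
  refine limsup_le_of_le ?_ ?_
  · refine IsBoundedUnder.isCoboundedUnder_le ⟨0, ?_⟩
    rw [eventually_map]
    exact Eventually.of_forall fun n => div_nonneg (Real.log_natCast_nonneg _) (Nat.cast_nonneg _)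
  · filter_upwards [eventually_ge_atTop (max N0 1)] with N hN
    have hN1 : N0 ≤ N := le_trans (le_max_left _ _) hN
    have hN2 : 1 ≤ N := le_trans (le_max_right _ _) hN
    have hNR : (0 : ℝ) < N := by exact_mod_cast hN2
    have hcode1 : IsCode θ ({EuclideanSpace.single (⟨0, hN2⟩ : Fin N) (1 : ℝ)} :
        Finset (EuclideanSpace ℝ (Fin N))) := by
      constructor
      · intro x hx
        rw [mem_singleton] at hx
        rw [hx]
        simp
      · intro x hx y hy hxy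
        rw [mem_singleton] at hx hy
        exact absurd (hx.trans hy.symm) hxy
    have hne : {k | ∃ C : Finset (EuclideanSpace ℝ (Fin N)), IsCode θ C ∧ C.card = k}.Nonempty :=
      ⟨_, _, hcode1, rfl⟩
    have hbdd : BddAbove {k | ∃ C : Finset (EuclideanSpace ℝ (Fin N)),
        IsCode θ C ∧ C.card = k} := by
      refine ⟨⌊Real.exp (N * (β + ε))⌋₊, ?_⟩
      rintro k ⟨C, hC, rfl⟩
      exact Nat.le_floor (hN0 N hN1 C hC)
    have hA1 : 1 ≤ A N θ := by
      have : 1 ∈ {k | ∃ C : Finset (EuclideanSpace ℝ (Fin N)), IsCode θ C ∧ C.card = k} :=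
        ⟨_, hcode1, card_singleton _⟩
      exact le_csSup hbdd this
    obtain ⟨C, hC, hCA⟩ : A N θ ∈ {k | ∃ C : Finset (EuclideanSpace ℝ (Fin N)),
        IsCode θ C ∧ C.card = k} := Nat.sSup_mem hne hbdd
    have h1 := hN0 N hN1 C hC
    rw [hCA] at h1
    have hA0 : (0 : ℝ) < A N θ := by exact_mod_cast hA1
    rw [div_le_iff₀ hNR, mul_comm]
    exact (Real.log_le_iff_le_exp hA0).mpr h1

/-- minimal distances and angles -/
theorem dist_of_code {N : ℕ} {θ : ℝ} {C : Finset (EuclideanSpace ℝ (Fin N))} (hC : IsCode θ C) :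
    ∀ x ∈ C, ∀ y ∈ C, x ≠ y → √(2 - 2 * Real.cos θ) ≤ dist x y := by
  intro x hx y hy hxy
  rw [dist_eq_norm]
  apply Real.sqrt_le_iff.mpr
  refine ⟨norm_nonneg _, ?_⟩
  rw [@norm_sub_sq_real, hC.1 x hx, hC.1 y hy]
  have := hC.2 x hx y hy hxy
  linarith

/-- the bound in terms of an orthogonal matrix -/
theorem rate_gauss {n : ℕ} {O : Fin (n + 1) → Fin (n + 1) → ℝ} {c : Fin (n + 1) → ℝ}
    {O' : Fin n → Fin n → ℝ} {c' : Fin n → ℝ} (hO : IsOrth O) (hO' : IsOrth O')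
    (hc : ∀ j, 0 < c j) (hc' : ∀ j, 0 < c' j)
    (hQ : ∀ i l : Fin n, QM O c i.succ l.succ = QM O' c' i l) {θ : ℝ}
    (hθ1 : Real.cos θ < 1) (hE : Real.cos θ < ∑ j, O j 0 ^ 2 * ph (c j)) :
    rate θ ≤ ∑ j, gH (c j) - ∑ j, gH (c' j) := by
  refine rate_le fun ε hε => ?_
  have hsd : 0 < √(2 - 2 * Real.cos θ) := Real.sqrt_pos.mpr (by linarith)
  have hE2 : ∑ j, O j 0 ^ 2 * eC (c j) < 1 / 2 * √(2 - 2 * Real.cos θ) ^ 2 := by
    rw [Real.sq_sqrt (by linarith)]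
    have h1 : ∑ j, O j 0 ^ 2 * eC (c j) = 1 - ∑ j, O j 0 ^ 2 * ph (c j) := by
      rw [← col_norm O hO 0, ← sum_sub_distrib]
      refine sum_congr rfl fun j _ => ?_
      unfold eC ph
      ring
    rw [h1]
    linarith
  obtain ⟨N0, hN0⟩ := code_gauss hO hO' hc hc' hQ hsd hE2 hε
  exact ⟨N0, fun N hN C hC => hN0 N hN C hC.1 (dist_of_code hC)⟩

theorem int_log {p : ℝ} (hp : 1 < p) :
    IntervalIntegrable (fun t : ℝ => Real.log (p - t ^ 2)) volume 0 1 := by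
  apply ContinuousOn.intervalIntegrable
  rw [Set.uIcc_of_le zero_le_one]
  apply ContinuousOn.log
  · fun_prop
  · intro t ht
    have : t ^ 2 ≤ 1 := by nlinarith [ht.1, ht.2]
    have : 0 < p - t ^ 2 := by linarith
    exact this.ne'

theorem rate_mx {n : ℕ} {w c : Fin (n + 1) → ℝ} (hw : ∀ j, 0 < w j) (hsum : ∑ j, w j = 1)
    (hc : ∀ j, 0 < c j) {θ : ℝ} (hθ1 : Real.cos θ < 1)
    (hE : Real.cos θ < ∑ j, w j * ph (c j)) : rate θ ≤ mx w c := by
  obtain ⟨O, O', c', hO, hO', hc', hO0, hQ, hdet⟩ := Pool.Agent.W417.KS.la n w c hw hsum hc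
  have h1 := rate_gauss hO hO' hc hc' hQ hθ1 (by simpa only [hO0] using hE)
  refine h1.trans (le_of_eq ?_)
  have hint := Pool.Agent.W460.KSI.int
  have hg : ∀ x : ℝ, 0 < x → gH x = 1 - Real.log 2 + 1 / 2 * ∫ t in (0 : ℝ)..1,
      Real.log (1 + 2 * x - t ^ 2) := hint
  have hp : ∀ x : ℝ, 0 < x → 1 < 1 + 2 * x := fun x hx => by linarith
  have key : ∫ t in (0 : ℝ)..1, Real.log (∑ j, w j / (1 + 2 * c j - t ^ 2))
      = ∑ i, (∫ t in (0 : ℝ)..1, Real.log (1 + 2 * c' i - t ^ 2))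
        - ∑ j, ∫ t in (0 : ℝ)..1, Real.log (1 + 2 * c j - t ^ 2) := by
    rw [← intervalIntegral.integral_finsetSum fun i _ => int_log (hp _ (hc' i)),
      ← intervalIntegral.integral_finsetSum fun j _ => int_log (hp _ (hc j)),
      ← intervalIntegral.integral_sub]
    · apply intervalIntegral.integral_congr
      intro t ht
      rw [Set.uIcc_of_le zero_le_one] at ht
      have ht2 : t ^ 2 ≤ 1 := by nlinarith [ht.1, ht.2]
      have hd := hdet (t ^ 2) (sq_nonneg t) ht2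
      have hpos : ∀ j, 0 < 1 + 2 * c j - t ^ 2 := fun j => by have := hc j; linarith
      have hpos' : ∀ i, 0 < 1 + 2 * c' i - t ^ 2 := fun i => by have := hc' i; linarith
      have hR : 0 < ∑ j, w j / (1 + 2 * c j - t ^ 2) :=
        sum_pos (fun j _ => div_pos (hw j) (hpos j)) univ_nonempty
      show Real.log (∑ j, w j / (1 + 2 * c j - t ^ 2)) = ∑ i, Real.log (1 + 2 * c' i - t ^ 2)
        - ∑ j, Real.log (1 + 2 * c j - t ^ 2)
      rw [← Real.log_prod fun i _ => (hpos' i).ne', ← hd, Real.log_mul hR.ne'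
        (prod_pos fun j _ => hpos j).ne', Real.log_prod fun i _ => (hpos i).ne']
      ring
    · have := IntervalIntegrable.sum univ fun i _ => int_log (hp _ (hc' i))
      simpa only [Finset.sum_fn] using this
    · have := IntervalIntegrable.sum univ fun j _ => int_log (hp _ (hc j))
      simpa only [Finset.sum_fn] using this
  unfold mx
  rw [key]
  have h2 : ∑ j, gH (c j) = (n + 1) * (1 - Real.log 2)
      + 1 / 2 * ∑ j, ∫ t in (0 : ℝ)..1, Real.log (1 + 2 * c j - t ^ 2) := by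
    rw [mul_sum, sum_congr rfl fun j _ => hg (c j) (hc j), sum_add_distrib, sum_const, card_univ,
      Fintype.card_fin, nsmul_eq_mul]
    push_cast
    ring
  have h3 : ∑ i, gH (c' i) = n * (1 - Real.log 2)
      + 1 / 2 * ∑ i, ∫ t in (0 : ℝ)..1, Real.log (1 + 2 * c' i - t ^ 2) := by
    rw [mul_sum, sum_congr rfl fun j _ => hg (c' j) (hc' j), sum_add_distrib, sum_const, card_univ,
      Fintype.card_fin, nsmul_eq_mul]
  rw [h2, h3]
  ring

/-! ### Two modes -/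

/-- the orthogonal matrix -/
noncomputable def O2 (w : ℝ) : Fin 2 → Fin 2 → ℝ := ![![√w, √(1 - w)], ![√(1 - w), -√w]]

theorem orth2 {w : ℝ} (h0 : 0 < w) (h1 : w < 1) : IsOrth (O2 w) := by
  have e1 : √w * √w = w := Real.mul_self_sqrt h0.le
  have e2 : √(1 - w) * √(1 - w) = 1 - w := Real.mul_self_sqrt (by linarith)
  intro j l
  fin_cases j <;> fin_cases l <;> simp [O2, Fin.sum_univ_two, e1, e2] <;> ring

theorem orth1 : IsOrth (fun _ _ : Fin 1 => (1 : ℝ)) := by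
  intro j l
  simp [Subsingleton.elim j l]

theorem hyp2 {a b w : ℝ} (h0 : 0 < w) (h1 : w < 1) :
    ∀ i l : Fin 1, QM (O2 w) ![a, b] i.succ l.succ
      = QM (fun _ _ : Fin 1 => (1 : ℝ)) (fun _ => (1 - w) * a + w * b) i l := by
  have e1 : √w * √w = w := Real.mul_self_sqrt h0.le
  have e2 : √(1 - w) * √(1 - w) = 1 - w := Real.mul_self_sqrt (by linarith)
  intro i l
  fin_cases i
  fin_cases l
  simp only [QM, O2, Fin.sum_univ_two, Fin.succ_zero_eq_one, Fin.zero_eta, Matrix.cons_val_zero,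
    Matrix.cons_val_one, Fin.sum_univ_one, Fin.isValue]
  calc √(1 - w) * a * √(1 - w) + -√w * b * -√w = (√(1 - w) * √(1 - w)) * a + (√w * √w) * b := by ring
    _ = _ := by rw [e1, e2]; ring

theorem sum_tm {a b w : ℝ} : ∑ j, gH ((![a, b] : Fin 2 → ℝ) j)
    - ∑ _j : Fin 1, gH ((1 - w) * a + w * b) = tm a b w := by
  simp [Fin.sum_univ_two, tm]

theorem pos2 {a b : ℝ} (ha : 0 < a) (hb : 0 < b) : ∀ j, 0 < (![a, b] : Fin 2 → ℝ) j := by
  intro j
  fin_cases j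
  · exact ha
  · exact hb

theorem rate_tm {a b w : ℝ} (ha : 0 < a) (hb : 0 < b) (h0 : 0 < w) (h1 : w < 1) {θ : ℝ}
    (hθ1 : Real.cos θ < 1) (hE : Real.cos θ < w * ph a + (1 - w) * ph b) :
    rate θ ≤ tm a b w := by
  have e1 : √w ^ 2 = w := Real.sq_sqrt h0.le
  have e2 : √(1 - w) ^ 2 = 1 - w := Real.sq_sqrt (by linarith)
  have hz : 0 < (1 - w) * a + w * b := by
    have : 0 < 1 - w := by linarith
    positivity
  have := rate_gauss (orth2 h0 h1) orth1 (pos2 ha hb) (fun _ => hz) (hyp2 h0 h1) hθ1 (by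
    simpa [Fin.sum_univ_two, O2, e1, e2] using hE)
  rwa [sum_tm] at this

theorem kiss_bound : ∃ β : ℝ, β < 39663 / 100000 * Real.log 2 ∧ ∀ ε : ℝ, 0 < ε →
    ∃ N0 : ℕ, ∀ N ≥ N0, ∀ C : Finset (EuclideanSpace ℝ (Fin N)), (∀ x ∈ C, ‖x‖ = 1) →
      (∀ x ∈ C, ∀ y ∈ C, x ≠ y → 1 ≤ dist x y) →
      (C.card : ℝ) ≤ Real.exp (N * (β + ε)) := by
  obtain ⟨a, b, w, ha, hb, h0, h1, hE, hv⟩ := Pool.Agent.W249.KS.main
  refine ⟨tm a b w, hv, fun ε hε => ?_⟩
  have e1 : √w ^ 2 = w := Real.sq_sqrt h0.le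
  have e2 : √(1 - w) ^ 2 = 1 - w := Real.sq_sqrt (by linarith)
  have hz : 0 < (1 - w) * a + w * b := by
    have : 0 < 1 - w := by linarith
    positivity
  have hE2 : ∑ j, O2 w j 0 ^ 2 * eC ((![a, b] : Fin 2 → ℝ) j) < 1 / 2 * (1 : ℝ) ^ 2 := by
    simp only [Fin.sum_univ_two, O2, Matrix.cons_val_zero, Matrix.cons_val_one, e1, e2,
      Fin.isValue]
    unfold ph at hE
    unfold eC
    linarith
  have := code_gauss (orth2 h0 h1) orth1 (pos2 ha hb) (fun _ => hz) (hyp2 h0 h1) one_pos hE2 hε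
  rwa [sum_tm] at this

theorem codes_kiss : ∀ᶠ n : ℕ in atTop, ∀ C : Finset (EuclideanSpace ℝ (Fin n)),
    (∀ c ∈ C, ‖c‖ = 1) → (∀ c ∈ C, ∀ c' ∈ C, c ≠ c' → 1 ≤ dist c c') →
    (C.card : ℝ) ≤ (2 : ℝ) ^ ((39663 / 100000 : ℝ) * n) := by
  obtain ⟨β, hβ, h⟩ := kiss_bound
  obtain ⟨N0, hN0⟩ := h (39663 / 100000 * Real.log 2 - β) (by linarith)
  filter_upwards [eventually_ge_atTop N0] with n hn C h1 h2
  refine (hN0 n hn C h1 h2).trans (le_of_eq ?_)
  rw [Real.rpow_def_of_pos two_pos]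
  congr 1
  ring

end Pool.Agent.W48.KS
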