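import Pool.Agent.W48.KS.AT2
import Pool.Agent.W48.KS.Defs
import Pool.Agent.W259.GP.Main
import Pool.Agent.H703R2.LP.Code
import Pool.Agent.H390R2.LP.Main

/-!
Bounds for spherical codes from Gaussian states with one measured mode.
-/

open MeasureTheory Finset Filter
open scoped Topology

namespace Pool.Agent.W48.KS

open Pool.Agent.H390R2.LP Pool.Agent.H785R2.LP Pool.Agent.W259.GP

section

variable {n : ℕ} {O : Fin (n + 1) → Fin (n + 1) → ℝ} {c : Fin (n + 1) → ℝ}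
    {χ : (Fin (n + 1) → ℕ) → (Fin (n + 1) → ℝ) → ℝ} {O' : Fin n → Fin n → ℝ} {c' : Fin n → ℝ}
    {χ' : (Fin n → ℕ) → (Fin n → ℝ) → ℝ}

theorem gauss_step2 (hAT : S_AT2) (hent : S_entropy) (hs1 : S_sl1) (hs2 : S_sl2) (hs3 : S_sl3)
    (hP : Pair O c χ O' c' χ') (K : ℕ) (hK : 0 < K)
    (F₀ : Finset (Fin n → ℕ)) (η : ℝ) (hη : 0 < η) :
    ∃ (Ω : Type) (_ : Fintype Ω) (_ : DecidableEq Ω) (q : ℕ) (s : Site Ω (Fin q)) (a0 hg : ℝ),
      0 < hg ∧ hg < η ∧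
      s.S - s.h - Real.log hg <
        -((1 / 2 * Real.log Real.pi * (∑ κ ∈ box (n + 1) K, Lam c κ)
          + (∑ κ ∈ box (n + 1) K, Lam c κ * mY χ 0 κ)
          - (∑ κ' ∈ F₀, (∑ κ ∈ box (n + 1) K, Lam c κ * ∫ x, bb χ' χ κ' κ x ^ 2) *
              Real.log (Lam c' κ'))
          + (∑ κ ∈ box (n + 1) K, Lam c κ * Real.log (Lam c κ)))
            / (∑ κ ∈ box (n + 1) K, Lam c κ)) + η ∧
      |∑ x, s.P x * (a0 + hg * (x : ℝ)) ^ 2 - (∑ κ ∈ box (n + 1) K, Lam c κ * mY χ 0 κ)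
            / (∑ κ ∈ box (n + 1) K, Lam c κ)| < η ∧
      s.E (fun (_ : Unit) (x : Fin q) => hg * (x : ℝ)) <
        (2 * (∑ κ ∈ box (n + 1) K, Lam c κ * mY χ 0 κ
          - ∑ κ ∈ box (n + 1) K, ∑ κ' ∈ box (n + 1) K,
            √(Lam c κ * Lam c κ') * mX χ 0 κ κ' ^ 2)) / (∑ κ ∈ box (n + 1) K, Lam c κ) + η := by
  classical
  have hl : ∀ κ, 0 < Lam c κ := fun κ => ((hent _ c hP.pos).1 κ).1
  have hne : Nonempty (box (n + 1) K) := by
    refine ⟨⟨fun _ => 0, ?_⟩⟩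
    unfold Pool.Agent.W259.GP.box
    rw [Fintype.mem_piFinset]
    intro j
    rw [mem_range]
    exact hK
  have key := hAT (Fin n → ℕ) (box (n + 1) K) (fun κ' κ x => bb χ' χ κ' κ x)
    (fun κ => Lam c κ) (Lam c') (fun κ κ₁ => mX χ 0 κ κ₁) (fun κ => mY χ 0 κ)
    (fun κ => hl κ) (fun κ' => (hent _ c' hP.pos').1 κ')
    (fun κ' κ => (hs1 n O c χ O' c' χ' hP κ' κ).1)
    (fun κ' κ => (hs1 n O c χ O' c' χ' hP κ' κ).2)
    ?_ ?_ ?_ ?_ F₀ η hη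
  · obtain ⟨Ω, i1, i2, q, s, a0, hg, hg0, hgη, hs1, hs2, hs3⟩ := key
    have h1 : ∀ κ : Fin (n + 1) → ℕ, ∑ j' : (box (n + 1) K), √(Lam c κ * Lam c j') * mX χ 0 κ j' ^ 2
        = ∑ j' ∈ box (n + 1) K, √(Lam c κ * Lam c j') * mX χ 0 κ j' ^ 2 := fun κ =>
      Finset.sum_coe_sort (box (n + 1) K) (fun j' => √(Lam c κ * Lam c j') * mX χ 0 κ j' ^ 2)
    have h2 : ∀ κ' : Fin n → ℕ, ∑ κ : (box (n + 1) K), Lam c κ * ∫ x, bb χ' χ κ' κ x ^ 2
        = ∑ κ ∈ box (n + 1) K, Lam c κ * ∫ x, bb χ' χ κ' κ x ^ 2 := fun κ' =>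
      Finset.sum_coe_sort (box (n + 1) K) (fun κ => Lam c κ * ∫ x, bb χ' χ κ' κ x ^ 2)
    refine ⟨Ω, i1, i2, q, s, a0, hg, hg0, hgη, ?_, ?_, ?_⟩
    · rw [Finset.sum_coe_sort (box (n + 1) K) (fun κ => Lam c κ),
        Finset.sum_coe_sort (box (n + 1) K) (fun κ => Lam c κ * mY χ 0 κ),
        Finset.sum_coe_sort (box (n + 1) K) (fun κ => Lam c κ * Real.log (Lam c κ))] at hs1
      simp only [h2] at hs1
      exact hs1
    · rw [Finset.sum_coe_sort (box (n + 1) K) (fun κ => Lam c κ),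
        Finset.sum_coe_sort (box (n + 1) K) (fun κ => Lam c κ * mY χ 0 κ)] at hs2
      exact hs2
    · rw [Finset.sum_coe_sort (box (n + 1) K) (fun κ => Lam c κ),
        Finset.sum_coe_sort (box (n + 1) K) (fun κ => Lam c κ * mY χ 0 κ)] at hs3
      simp only [h1] at hs3
      rw [Finset.sum_coe_sort (box (n + 1) K) (fun κ => ∑ κ' ∈ box (n + 1) K,
        √(Lam c κ * Lam c κ') * mX χ 0 κ κ' ^ 2)] at hs3
      exact hs3
  · intro x F v
    rw [Finset.sum_coe_sort (box (n + 1) K)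
      (fun κ => Lam c κ * (∑ i ∈ F, v i * bb χ' χ i κ x) ^ 2)]
    exact sum_le_hasSum _ (fun κ _ => mul_nonneg (hl κ).le (sq_nonneg _))
      (hs2 n O c χ O' c' χ' hP x F v)
  · intro κ κ₁
    have h1 := hs3 n O c χ O' c' χ' hP 0 κ κ₁
    simp only [pow_zero, one_mul] at h1
    rw [hP.h.orth] at h1
    have h2 : (if (κ : Fin (n + 1) → ℕ) = κ₁ then (1 : ℝ) else 0) = if κ = κ₁ then 1 else 0 := by
      simp only [Subtype.ext_iff]
    rw [h2] at h1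
    exact h1
  · intro κ κ₁
    have h1 := hs3 n O c χ O' c' χ' hP 1 κ κ₁
    simp only [pow_one] at h1
    exact h1
  · intro κ
    have h1 := hs3 n O c χ O' c' χ' hP 2 κ κ
    simp only [← sq] at h1
    exact h1

end

/-- one-site states from Gaussian states with one measured mode -/
def S_gauss2 : Prop := ∀ (n : ℕ) (O : Fin (n + 1) → Fin (n + 1) → ℝ) (c : Fin (n + 1) → ℝ)
    (O' : Fin n → Fin n → ℝ) (c' : Fin n → ℝ), IsOrth O → IsOrth O' → (∀ j, 0 < c j) →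
    (∀ j, 0 < c' j) → (∀ i l : Fin n, QM O c i.succ l.succ = QM O' c' i l) →
    ∀ η : ℝ, 0 < η →
    ∃ (Ω : Type) (_ : Fintype Ω) (_ : DecidableEq Ω) (q : ℕ) (s : Site Ω (Fin q)) (a0 hg : ℝ),
      0 < hg ∧ hg < η ∧
      s.S - s.h - Real.log hg <
        -(1 / 2 * Real.log Real.pi) - 1 / 2 + ∑ j, gH (c j) - ∑ j, gH (c' j) + η ∧
      |∑ x, s.P x * (a0 + hg * (x : ℝ)) ^ 2 - 1 / 2| < η ∧
      s.E (fun (_ : Unit) (x : Fin q) => hg * (x : ℝ)) < ∑ j, O j 0 ^ 2 * eC (c j) + η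

theorem gauss2_of (hAT : S_AT2) (heig : S_eig) (hm1 : S_modes1) (hm2 : S_modes2) (hs1 : S_sl1)
    (hs2 : S_sl2) (hs3 : S_sl3) (hmom2 : S_mom2) (hen : S_energy) (hent : S_entropy) :
    S_gauss2 := by
  intro n O c O' c' hO hO' hc hc' hQ η hη
  choose ψ hψ using fun j => heig (c j) (hc j)
  choose ψ' hψ' using fun j => heig (c' j) (hc' j)
  have hP : Pair O c (chi O ψ) O' c' (chi O' ψ') :=
    ⟨modes hm1 hm2 _ O c ψ hO hc hψ, modes hm1 hm2 _ O' c' ψ' hO' hc' hψ', hc, hc', hQ⟩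
  set χ := chi O ψ with hχ
  set χ' := chi O' ψ' with hχ'
  set Ei := ∑ j, O j 0 ^ 2 * eC (c j) with hEi
  have hT := (hent _ c hc).2.1
  have hL := (hent _ c hc).2.2
  have hM := hmom2 (n + 1) O c ψ 0 hO hc hψ
  have hE := hen (n + 1) O c ψ 0 hO hc hψ
  have hL' := (hent _ c' hc').2.2
  -- choice of `F₀`
  have h1 : ∀ᶠ K' in atTop, ∑ κ ∈ box n K', Lam c' κ * Real.log (Lam c' κ)
      < -∑ j, gH (c' j) + η / 4 := hL'.eventually_lt_const (by linarith)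
  obtain ⟨K', hK'⟩ := h1.exists
  -- the limit in `K`
  have hR : Tendsto (fun K => ∑ κ' ∈ box n K', (∑ κ ∈ box (n + 1) K, Lam c κ *
      ∫ x, bb χ' χ κ' κ x ^ 2) * Real.log (Lam c' κ')) atTop
      (𝓝 (∑ κ' ∈ box n K', Lam c' κ' * Real.log (Lam c' κ'))) := by
    refine tendsto_finsetSum _ fun κ' _ => Tendsto.mul_const _ ?_
    have h4 : Tendsto (fun F : Finset (Fin (n + 1) → ℕ) => ∑ κ ∈ F, Lam c κ *
        ∫ x, bb χ' χ κ' κ x ^ 2) atTop (𝓝 (Lam c' κ')) := hasSum_bb hent hs1 hs2 hP κ'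
    exact h4.comp (tendsto_box (n + 1))
  have hlim := (((((hT.const_mul (1 / 2 * Real.log Real.pi)).add hM).sub hR).add hL).div hT
    one_ne_zero).neg
  have hlim2 := hM.div hT one_ne_zero
  have hlim3 := hE.div hT one_ne_zero
  have e1 := hlim.eventually_lt_const (show _ <
      -(1 / 2 * Real.log Real.pi) - 1 / 2 + ∑ j, gH (c j) - ∑ j, gH (c' j) + η / 2 by
    rw [div_one]
    linarith)
  have e2 : ∀ᶠ K in atTop, |(∑ κ ∈ box (n + 1) K, Lam c κ * mY χ 0 κ)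
      / (∑ κ ∈ box (n + 1) K, Lam c κ) - 1 / 2| < η / 2 := by
    have := Metric.tendsto_nhds.mp hlim2 (η / 2) (by positivity)
    filter_upwards [this] with K hK
    rw [Real.dist_eq, div_one] at hK
    exact hK
  have e3 := hlim3.eventually_lt_const (show Ei / 1 < Ei + η / 2 by rw [div_one]; linarith)
  obtain ⟨K, hK1, hK2, hK3, hK4⟩ := (e1.and (e2.and (e3.and (eventually_gt_atTop 0)))).exists
  obtain ⟨Ω, i1, i2, q, s, a0, hg, hg0, hgη, g1, g2, g3⟩ :=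
    gauss_step2 hAT hent hs1 hs2 hs3 hP K hK4 (box n K') (η / 2) (by positivity)
  refine ⟨Ω, i1, i2, q, s, a0, hg, hg0, by linarith, ?_, ?_, ?_⟩
  · simp only [Pi.div_apply] at hK1
    linarith
  · rw [abs_lt] at g2 hK2 ⊢
    constructor <;> linarith [g2.1, g2.2, hK2.1, hK2.2]
  · simp only [Pi.div_apply] at hK3
    linarith

theorem gauss2 : S_gauss2 :=
  gauss2_of at2 s_eig Pool.Agent.W390.GPM.modes1 Pool.Agent.W417.GP.modes2
    Pool.Agent.W174.GP.sl1 Pool.Agent.W174.GP.sl2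
    (Pool.Agent.W64.GP.sl3_of Pool.Agent.W174.GP.sl1)
    (mom2_of Pool.Agent.W390.GPM.mXY) (energy_of Pool.Agent.W390.GPM.mXY)
    Pool.Agent.W196.GPEnt.entropy

/-- **Spherical codes from Gaussian states.** -/
theorem code_gauss {n : ℕ} {O : Fin (n + 1) → Fin (n + 1) → ℝ} {c : Fin (n + 1) → ℝ}
    {O' : Fin n → Fin n → ℝ} {c' : Fin n → ℝ} (hO : IsOrth O) (hO' : IsOrth O')
    (hc : ∀ j, 0 < c j) (hc' : ∀ j, 0 < c' j)
    (hQ : ∀ i l : Fin n, QM O c i.succ l.succ = QM O' c' i l) {sd : ℝ} (hsd : 0 < sd)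
    (hE : ∑ j, O j 0 ^ 2 * eC (c j) < 1 / 2 * sd ^ 2) {ε : ℝ} (hε : 0 < ε) :
    ∃ N0 : ℕ, ∀ N ≥ N0, ∀ C : Finset (EuclideanSpace ℝ (Fin N)), (∀ x ∈ C, ‖x‖ = 1) →
      (∀ x ∈ C, ∀ y ∈ C, x ≠ y → sd ≤ dist x y) →
      (C.card : ℝ) ≤ Real.exp (N * (∑ j, gH (c j) - ∑ j, gH (c' j) + ε)) := by
  set E0 := ∑ j, O j 0 ^ 2 * eC (c j) with hE0
  -- choice of `δ`
  have hlimα : Tendsto (fun δ : ℝ => √(1 / 2 - δ) - δ) (𝓝[>] 0) (𝓝 (√(1 / 2))) := by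
    have : Tendsto (fun δ : ℝ => √(1 / 2 - δ) - δ) (𝓝 0) (𝓝 (√(1 / 2 - 0) - 0)) := by
      apply Continuous.tendsto
      fun_prop
    simp only [sub_zero] at this
    exact this.mono_left nhdsWithin_le_nhds
  have hlimβ : Tendsto (fun δ : ℝ => Real.log (√(1 / 2 + δ) + δ)) (𝓝[>] 0)
      (𝓝 (Real.log (√(1 / 2)))) := by
    have : Tendsto (fun δ : ℝ => √(1 / 2 + δ) + δ) (𝓝 0) (𝓝 (√(1 / 2 + 0) + 0)) := by
      apply Continuous.tendsto
      fun_prop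
    simp only [add_zero] at this
    exact (this.mono_left nhdsWithin_le_nhds).log (Real.sqrt_pos.mpr (by norm_num)).ne'
  have hδ : Tendsto (fun δ : ℝ => δ) (𝓝[>] 0) (𝓝 0) := tendsto_id.mono_left nhdsWithin_le_nhds
  have hs2 : √(1 / 2 : ℝ) ^ 2 = 1 / 2 := Real.sq_sqrt (by norm_num)
  have hs0 : 0 < √(1 / 2 : ℝ) := Real.sqrt_pos.mpr (by norm_num)
  have l1 : Tendsto (fun δ : ℝ => ((√(1 / 2 - δ) - δ) * sd - δ) ^ 2 - δ) (𝓝[>] 0)
      (𝓝 (1 / 2 * sd ^ 2)) := by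
    have := ((((hlimα.mul_const sd).sub hδ).pow 2).sub hδ)
    simp only [sub_zero, mul_pow, hs2] at this
    exact this
  have l2 : Tendsto (fun δ : ℝ => (√(1 / 2 - δ) - δ) * sd - δ) (𝓝[>] 0) (𝓝 (√(1 / 2) * sd)) := by
    have := (hlimα.mul_const sd).sub hδ
    simpa using this
  have l3 : Tendsto (fun δ : ℝ => Real.log (√(1 / 2 + δ) + δ) + δ) (𝓝[>] 0)
      (𝓝 (Real.log (√(1 / 2)))) := by
    have := hlimβ.add hδ
    simpa using this
  have hlog : Real.log (√(1 / 2)) = -(1 / 2 * Real.log 2) := by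
    rw [Real.log_sqrt (by norm_num), one_div, Real.log_inv]
    ring
  have ev := ((l1.eventually_const_lt hE).and ((l2.eventually_const_lt (mul_pos hs0 hsd)).and
    ((l3.eventually_lt_const (show Real.log (√(1 / 2)) < -(1 / 2 * Real.log 2) + ε / 2 by
      rw [hlog]; linarith)).and ((hlimα.eventually_const_lt hs0).and
      ((hδ.eventually_lt_const (show (0 : ℝ) < 1 / 2 by norm_num)).and
      (self_mem_nhdsWithin : ∀ᶠ δ : ℝ in 𝓝[>] 0, δ ∈ Set.Ioi (0 : ℝ)))))))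
  obtain ⟨δ, d1, d2, d3, d4, d5, d6⟩ := ev.exists
  have hδ0 : 0 < δ := d6
  obtain ⟨Ω, i1, i2, q, s, a0, hg, hg0, hgδ, g1, g2, g3⟩ :=
    gauss2 n O c O' c' hO hO' hc hc' hQ δ hδ0
  set M2 := ∑ x, s.P x * (a0 + hg * (x : ℝ)) ^ 2 with hM2
  rw [abs_lt] at g2
  have hM2l : √(1 / 2 - δ) ≤ √M2 := Real.sqrt_le_sqrt (by linarith [g2.1])
  have hM2u : √M2 ≤ √(1 / 2 + δ) := Real.sqrt_le_sqrt (by linarith [g2.2])
  obtain ⟨N0, hN0⟩ := Pool.Agent.H703R2.LP.code_bound iidw s (a0 := a0) (hg := hg)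
    (α := √(1 / 2 - δ) - δ) (β := √(1 / 2 + δ) + δ) (sd := sd) hg0 d4.le
    (by rw [← hM2]; linarith) (by rw [← hM2]; linarith) hsd.le (by linarith)
    (by
      have h1 : 0 < (√(1 / 2 - δ) - δ) * sd - δ := d2
      have h2 : ((√(1 / 2 - δ) - δ) * sd - δ) ^ 2 ≤ ((√(1 / 2 - δ) - δ) * sd - hg) ^ 2 := by
        apply pow_le_pow_left₀ h1.le
        linarith
      linarith) (ε := ε / 2) (by positivity)
  refine ⟨N0, fun N hN C h1 h2 => (hN0 N hN C h1 h2).trans ?_⟩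
  apply Real.exp_le_exp.mpr
  apply mul_le_mul_of_nonneg_left _ (Nat.cast_nonneg N)
  have hl2 : Real.log (2 * Real.pi * Real.exp 1) = Real.log 2 + Real.log Real.pi + 1 := by
    rw [Real.log_mul (by positivity) (Real.exp_pos 1).ne', Real.log_exp,
      Real.log_mul two_ne_zero Real.pi_ne_zero]
  rw [hl2]
  linarith

end Pool.Agent.W48.KS
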